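import Pool.Agent.H529.D.GDefs
import Pool.Graph.R_seed8.H95R2.BG.K1
import Pool.Graph.R_seed8.H95R2.BG.K2

/-! Correlations and traversals. -/

set_option autoImplicit false

open Finset

namespace Pool.Agent.H914.D

open Pool.Agent.H529.D
open Pool.Agent.H95R2.BG.Cert (pk corr_spec pk_succ_pow pk_one pk_land pk_shiftRight pk_base_zero)

theorem pk_congr {B n : ℕ} {u v : ℕ → ℕ} (h : ∀ i < n, u i = v i) : pk B n u = pk B n v := by
  unfold pk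
  exact sum_congr rfl fun i hi => by rw [h i (mem_range.1 hi)]

theorem gen_succ (Bo : ℕ) (f : ℕ → ℕ) (k lo : ℕ) : gen Bo f (k + 1) lo =
    gen Bo f k lo + gen Bo f k (lo + 2 ^ k) * 2 ^ (Bo * 2 ^ k) := by
  have e1 : ∀ a m : ℕ, Nat.shiftLeft a m = a * 2 ^ m := fun a m => Nat.shiftLeft_eq a m
  have h : gen Bo f (k + 1) lo = Nat.add (gen Bo f k lo)
      (Nat.shiftLeft (gen Bo f k (Nat.add lo (Nat.pow 2 k))) (Nat.mul Bo (Nat.pow 2 k))) := rfl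
  rw [h, e1]
  rfl

theorem gen_spec (Bo : ℕ) (f : ℕ → ℕ) (k : ℕ) : ∀ lo : ℕ,
    gen Bo f k lo = pk Bo (2 ^ k) (fun i => f (lo + i)) := by
  induction k with
  | zero =>
    intro lo
    rw [pk_one]
    rfl
  | succ k ih =>
    intro lo
    rw [gen_succ, ih, ih, pk_succ_pow]
    simp only [add_assoc]

theorem genr_succ (Bo Bb : ℕ) (f : ℕ → ℕ → ℕ → ℕ) (k lo y z : ℕ) :
    genr Bo Bb f (k + 1) lo y z =
    genr Bo Bb f k lo (Nat.land y (Nat.sub (Nat.shiftLeft 1 (Nat.mul Bb (Nat.pow 2 k))) 1))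
        (Nat.land z (Nat.sub (Nat.shiftLeft 1 (Nat.mul Bb (Nat.pow 2 k))) 1)) * 2 ^ (Bo * 2 ^ k) +
      genr Bo Bb f k (lo + 2 ^ k) (Nat.shiftRight y (Nat.mul Bb (Nat.pow 2 k)))
        (Nat.shiftRight z (Nat.mul Bb (Nat.pow 2 k))) := by
  have e1 : ∀ a m : ℕ, Nat.shiftLeft a m = a * 2 ^ m := fun a m => Nat.shiftLeft_eq a m
  have h : genr Bo Bb f (k + 1) lo y z = Nat.add
      (Nat.shiftLeft (genr Bo Bb f k lo
        (Nat.land y (Nat.sub (Nat.shiftLeft 1 (Nat.mul Bb (Nat.pow 2 k))) 1))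
        (Nat.land z (Nat.sub (Nat.shiftLeft 1 (Nat.mul Bb (Nat.pow 2 k))) 1)))
        (Nat.mul Bo (Nat.pow 2 k)))
      (genr Bo Bb f k (Nat.add lo (Nat.pow 2 k)) (Nat.shiftRight y (Nat.mul Bb (Nat.pow 2 k)))
        (Nat.shiftRight z (Nat.mul Bb (Nat.pow 2 k)))) := rfl
  rw [h, e1]
  rfl

theorem genr_spec (Bo Bb : ℕ) (f : ℕ → ℕ → ℕ → ℕ) (k : ℕ) : ∀ (lo : ℕ) (u v : ℕ → ℕ),
    (∀ i < 2 ^ k, u i < 2 ^ Bb) → (∀ i < 2 ^ k, v i < 2 ^ Bb) →
    genr Bo Bb f k lo (pk Bb (2 ^ k) u) (pk Bb (2 ^ k) v) =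
      pk Bo (2 ^ k) (fun i => f (lo + (2 ^ k - 1 - i)) (u (2 ^ k - 1 - i)) (v (2 ^ k - 1 - i))) := by
  induction k with
  | zero =>
    intro lo u v hu hv
    rw [pk_one, pk_one, pk_one]
    rfl
  | succ k ih =>
    intro lo u v hu hv
    have lo2 : ∀ {i : ℕ}, i < 2 ^ k → i < 2 ^ (k + 1) := fun hi =>
      hi.trans_le (Nat.pow_le_pow_right (by norm_num) (by omega))
    have e2 : (2 : ℕ) ^ (k + 1) = 2 ^ k + 2 ^ k := by rw [pow_succ, mul_two]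
    have hi2 : ∀ {i : ℕ}, i < 2 ^ k → 2 ^ k + i < 2 ^ (k + 1) := by
      intro i hi
      omega
    rw [genr_succ, pk_land Bb k u (fun i hi => hu i (lo2 hi)),
      pk_land Bb k v (fun i hi => hv i (lo2 hi)),
      pk_shiftRight Bb k u (fun i hi => hu i (lo2 hi)),
      pk_shiftRight Bb k v (fun i hi => hv i (lo2 hi)),
      ih lo u v (fun i hi => hu i (lo2 hi)) (fun i hi => hv i (lo2 hi)),
      ih (lo + 2 ^ k) (fun i => u (2 ^ k + i)) (fun i => v (2 ^ k + i))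
        (fun i hi => hu _ (hi2 hi)) (fun i hi => hv _ (hi2 hi)), pk_succ_pow]
    rw [add_comm]
    refine congrArg₂ (· + ·) (pk_congr fun i hi => ?_) (congrArg (· * 2 ^ (Bo * 2 ^ k))
      (pk_congr fun i hi => ?_))
    · have e3 : 2 ^ (k + 1) - 1 - i = 2 ^ k + (2 ^ k - 1 - i) := by omega
      rw [e3, ← add_assoc]
    · have e3 : 2 ^ (k + 1) - 1 - (2 ^ k + i) = 2 ^ k - 1 - i := by omega
      rw [e3]

theorem pk_sub (B n : ℕ) (u v : ℕ → ℕ) (h : ∀ i < n, v i ≤ u i) :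
    pk B n u - pk B n v = pk B n (fun i => u i - v i) := by
  have e : pk B n u = pk B n v + pk B n (fun i => u i - v i) := by
    unfold pk
    rw [← sum_add_distrib]
    refine sum_congr rfl fun i hi => ?_
    rw [← add_mul, Nat.add_sub_cancel' (h i (mem_range.1 hi))]
  rw [e, Nat.add_sub_cancel_left]

theorem sum_lt (N n : ℕ) (f : ℕ → ℕ) (M R : ℕ) (h : ∀ t ∈ range (N - n), f t ≤ M)
    (hM : N * M < R) : ∑ t ∈ range (N - n), f t < R := by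
  have h1 := Finset.sum_le_card_nsmul (range (N - n)) f M h
  rw [card_range, smul_eq_mul] at h1
  have h2 : (N - n) * M ≤ N * M := Nat.mul_le_mul_right M (Nat.sub_le _ _)
  exact (h1.trans h2).trans_lt hM

theorem RG_eq (Bb D : ℕ) (g : ℕ → ℕ) :
    RG Bb D g (2 ^ D) = pk Bb (2 ^ D) (fun i => g (2 ^ D - 1 - i)) := by
  unfold RG
  rw [gen_spec]
  simp only [zero_add]
  rfl

theorem RGP_eq (Bb D : ℕ) (g ph : ℕ → ℕ) :
    RGP Bb D g ph (2 ^ D) = pk Bb (2 ^ D) (fun i => (fun t => g t * ph t) (2 ^ D - 1 - i)) := by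
  unfold RGP
  rw [gen_spec]
  simp only [zero_add]
  rfl

theorem gen0 (Bo D : ℕ) (f : ℕ → ℕ) : gen Bo f D 0 = pk Bo (2 ^ D) f := by
  rw [gen_spec]
  simp only [zero_add]

theorem arr : S_ARR := by
  refine ⟨gen0, fun Bo Bb D f u v hu hv => ?_⟩
  rw [genr_spec Bo Bb f D 0 u v hu hv]
  simp only [zero_add]

theorem ge : S_GE := by
  intro Bb D u v hu hv h n hn
  rw [arr.2 0 Bb D _ u v hu hv, pk_base_zero, sum_eq_zero_iff] at h
  have h1 := h (2 ^ D - 1 - n) (mem_range.2 (by omega))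
  have e : 2 ^ D - 1 - (2 ^ D - 1 - n) = n := by omega
  beta_reduce at h1
  rw [e] at h1
  cases hb : Nat.ble (v n) (u n) with
  | true => exact Nat.le_of_ble_eq_true hb
  | false =>
    rw [hb] at h1
    exact absurd h1 one_ne_zero

theorem corr : S_CORR := by
  intro Bb D Gm Hm Pm g ph h0 h1 hg hph hh0 hh1 hPm hb
  have hN : 0 < 2 ^ D := Nat.pow_pos (by norm_num)
  have hGP : Gm ≤ Gm * Pm := Nat.le_mul_of_pos_right _ hPm
  have hb1 : 2 ^ D * Gm * Hm < 2 ^ Bb :=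
    lt_of_le_of_lt (Nat.mul_le_mul_right _ (Nat.mul_le_mul_left _ hGP)) hb
  have hb2 : 2 ^ D * (Gm * Hm) < 2 ^ Bb := by rwa [← mul_assoc]
  have hb3 : 2 ^ D * (Gm * Pm * Hm) < 2 ^ Bb := by rwa [← mul_assoc]
  have hAP : AP Bb D g h0 (2 ^ D) (Bb * (2 ^ D - 1)) = pk Bb (2 ^ D) (ap (2 ^ D) g h0) := by
    unfold AP
    rw [RG_eq, gen0]
    exact corr_spec Bb (2 ^ D) hN g h0 Gm Hm hg hh0 hb1
  have hAM : AM Bb D g ph h1 (2 ^ D) (Bb * (2 ^ D - 1)) = pk Bb (2 ^ D) (am (2 ^ D) g ph h1) := by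
    unfold AM
    rw [RGP_eq, gen0]
    exact corr_spec Bb (2 ^ D) hN (fun t => g t * ph t) h1 (Gm * Pm) Hm
      (fun i hi => Nat.mul_le_mul (hg i hi) (hph i hi)) hh1 hb
  have hBB : BB Bb D g h1 (2 ^ D) (Bb * (2 ^ D - 1)) = pk Bb (2 ^ D) (bb (2 ^ D) g h1) := by
    unfold BB
    rw [RG_eq, gen0]
    exact corr_spec Bb (2 ^ D) hN g h1 Gm Hm hg hh1 hb1
  refine ⟨hAP, hAM, hBB, fun n hn => ⟨?_, ?_, ?_⟩, fun hle => ?_⟩
  · unfold ap
    refine sum_lt _ _ _ (Gm * Hm) _ (fun t ht => ?_) hb2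
    have h2 := mem_range.1 ht
    exact Nat.mul_le_mul (hg t (by omega)) (hh0 _ (by omega))
  · unfold am
    refine sum_lt _ _ _ (Gm * Pm * Hm) _ (fun t ht => ?_) hb3
    have h2 := mem_range.1 ht
    exact Nat.mul_le_mul (Nat.mul_le_mul (hg t (by omega)) (hph t (by omega))) (hh1 _ (by omega))
  · unfold bb
    refine sum_lt _ _ _ (Gm * Hm) _ (fun t ht => ?_) hb2
    have h2 := mem_range.1 ht
    exact Nat.mul_le_mul (hg t (by omega)) (hh1 _ (by omega))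
  · unfold YY
    rw [hAP, hAM]
    exact pk_sub Bb (2 ^ D) _ _ hle

end Pool.Agent.H914.D

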